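import Pool.Agent.Helper12.ZR.Zeta

/-!
# The action of `ℤ⁹` on the circle by the rotations `ζ(11), ζ(13), …, ζ(27)` is cocycle rigid

The proof: by the simultaneous measure of the library (`Pool.Agent.Q203.XS.main'`) for every
frequency `n ≠ 0` one of the nine divisors `e(n w_j) - 1` is at least `c |n|^(-391)`; by the cocycle
identities the quotient of the `n`-th Fourier coefficient of `f_j` by this divisor does not depend on
the `j` that is chosen (`Pool.Agent.Helper12.ZR.rigidity`).
-/

set_option autoImplicit false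
open scoped ContDiff

namespace Pool.Agent.Results.MP_4f096c_nt.CocycleRigidity

open Pool.Agent.Helper12.ZR

/-- **Cocycle rigidity.** Let `J` be the set of the nine odd numbers from `11` to `27`, and `S` a finite set of indices
such that `ζ(j)` is rational for all `j ∈ J` outside `S` (for instance `S = J`; or `S = {11}`, if the other eight are
rational). Let `w_j = (p_j ζ(j) + r_j) / s_j` for `j ∈ S ∩ J`, with integers `p_j, s_j ≠ 0` and `r_j` (for instance
`w_j = ζ(j)`), and let the `w_j` with `j ∈ S` outside `J` be any real numbers. There is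
`C` such that for all functions `f_j`, `j ∈ S`, of period one and of class `C^393` with
`f_i(x + w_j) - f_i(x) = f_j(x + w_i) - f_j(x)` for all `i, j ∈ S` there is a continuous function `u` of period one with:
(1) `f_j(x) = ∫ f_j + u(x + w_j) - u(x)` for all `j ∈ S`; (2) `u` is of class `C^k` if all `f_j` are of class
`C^(k + 393)`, for every `k`, and `C^∞` if all `f_j` are; (3) for each `n ≠ 0` the Fourier coefficient of `u` is at most
`C |n|^391` times that of one of the `f_j`; (4) every continuous solution, with any constants, differs from `u` by a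
constant. -/
theorem result (S : Finset ℕ) (hrat : ∀ j ∈ J, j ∉ S → ∃ x : ℚ, zeta j = x)
    (p r s : ℕ → ℤ) (hp : ∀ j ∈ J, p j ≠ 0) (hs : ∀ j ∈ J, s j ≠ 0) (w : ℕ → ℝ)
    (hw : ∀ j ∈ J, j ∈ S → w j = (p j * zeta j + r j) / s j) :
    ∃ C : ℝ, ∀ f : ℕ → ℝ → ℂ, (∀ j ∈ S, ContDiff ℝ 393 (f j)) → (∀ j ∈ S, Function.Periodic (f j) 1) →
      (∀ i ∈ S, ∀ j ∈ S, ∀ x, f i (x + w j) - f i x = f j (x + w i) - f j x) →
      ∃ u : ℝ → ℂ, Continuous u ∧ Function.Periodic u 1 ∧
        (∀ j ∈ S, ∀ x, f j x = (∫ t in (0:ℝ)..1, f j t) + (u (x + w j) - u x)) ∧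
        (∀ k : ℕ, (∀ j ∈ S, ContDiff ℝ ((k + 393 : ℕ) : WithTop ℕ∞) (f j)) → ContDiff ℝ k u) ∧
        ((∀ j ∈ S, ContDiff ℝ ∞ (f j)) → ContDiff ℝ ∞ u) ∧
        (∀ n : ℤ, n ≠ 0 → ∃ j ∈ S, ‖coef u n‖ ≤ C * |(n : ℝ)| ^ 391 * ‖coef (f j) n‖) ∧
        ∀ v : ℝ → ℂ, Continuous v → Function.Periodic v 1 →
          (∀ j ∈ S, ∃ b : ℂ, ∀ x, f j x = b + (v (x + w j) - v x)) →
          ∃ b : ℂ, ∀ x, v x = u x + b := by
  classical
  have hx : ∀ j, ∃ x : ℚ, j ∈ J → j ∉ S → zeta j = x := by
    intro j
    by_cases h : j ∈ J ∧ j ∉ S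
    · obtain ⟨x, hx⟩ := hrat j h.1 h.2
      exact ⟨x, fun _ _ => hx⟩
    · exact ⟨0, fun h1 h2 => absurd ⟨h1, h2⟩ h⟩
  choose x hx using hx
  obtain ⟨c, hc, hd⟩ := divisors (fun j => if j ∈ S then p j else (x j).den)
    (fun j => if j ∈ S then r j else -(x j).num) (fun j => if j ∈ S then s j else 1)
    (fun j hj => by
      by_cases h : j ∈ S
      · simp only [if_pos h]
        exact hp j hj
      · simp only [if_neg h]
        exact_mod_cast (x j).den_ne_zero)
    (fun j hj => by
      by_cases h : j ∈ S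
      · simp only [if_pos h]
        exact hs j hj
      · simp only [if_neg h]
        exact one_ne_zero)
  have hd' : ∀ n : ℤ, n ≠ 0 → ∃ j ∈ S, c / |(n : ℝ)| ^ 391 ≤ ‖e (n * w j) - 1‖ := by
    intro n hn
    obtain ⟨j, hj, h⟩ := hd n hn
    by_cases hjS : j ∈ S
    · refine ⟨j, hjS, ?_⟩
      simp only [if_pos hjS] at h
      rw [hw j hj hjS]
      exact h
    · exfalso
      simp only [if_neg hjS] at h
      have h1 : (((x j).den : ℤ) : ℝ) * zeta j + ((-(x j).num : ℤ) : ℝ) = 0 := by
        rw [hx j hj hjS]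
        have h2 : ((x j : ℚ) : ℝ) = (x j).num / (x j).den := by
          exact_mod_cast (Rat.num_div_den (x j)).symm
        have h3 : ((x j).den : ℝ) ≠ 0 := by exact_mod_cast (x j).den_ne_zero
        rw [h2]
        push_cast
        field_simp
        ring
      rw [h1, zero_div, mul_zero, e_zero, sub_self, norm_zero] at h
      have hn0 : 0 < |(n : ℝ)| := abs_pos.2 (by exact_mod_cast hn)
      have : 0 < c / |(n : ℝ)| ^ 391 := by positivity
      linarith
  refine ⟨c⁻¹, fun f hf hper hcomm => ?_⟩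
  obtain ⟨u, h1, h2, h3, h4, h5⟩ := rigidity S w c hc 391 hd' f
    (fun j hj => by exact_mod_cast hf j hj) hper hcomm
  refine ⟨u, h1, h2, h3, fun k hk => h4 k hk, fun hi => ?_, fun n hn => ?_, h5⟩
  · rw [contDiff_infty]
    intro k
    exact h4 k fun j hj => contDiff_infty.1 (hi j hj) (k + (391 + 2))
  · obtain ⟨j, hj, h⟩ := hd' n hn
    refine ⟨j, hj, ?_⟩
    have h6 : coef (f j) n = (e (n * w j) - 1) * coef u n := by
      have h8 : coef (fun x => u (x + w j) - u x) n =
          coef (f j) n - coef (fun _ : ℝ => ∫ t in (0:ℝ)..1, f j t) n := by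
        rw [← coef_sub (hf j hj).continuous continuous_const]
        congr 1
        funext x
        have := h3 j hj x
        linear_combination -this
      have h9 : coef (fun _ : ℝ => ∫ t in (0:ℝ)..1, f j t) n = 0 := coef_const _ hn
      rw [h9, sub_zero] at h8
      rw [← h8, coef_diff h2 h1]
    have hn0 : 0 < |(n : ℝ)| := abs_pos.2 (by exact_mod_cast hn)
    rw [h6, norm_mul]
    calc ‖coef u n‖ = c⁻¹ * |(n : ℝ)| ^ 391 * (c / |(n : ℝ)| ^ 391 * ‖coef u n‖) := by
          field_simp
      _ ≤ _ := by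
          refine mul_le_mul_of_nonneg_left (mul_le_mul_of_nonneg_right h (norm_nonneg _)) ?_
          positivity

end Pool.Agent.Results.MP_4f096c_nt.CocycleRigidity
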