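import Pool.Agent.Helper12.ZR.Sub
import Pool.Agent.Helper12.ZR.Walk

/-!
# The lazy random walk on the circle with the steps `ζ(11), ζ(13), …, ζ(27)` mixes at polynomial rates

The proof: the `n`-th character is an eigenfunction of the walk with the eigenvalue
`(1 + ∑ e(n w_j)) / (|S| + 1)`; if one of the divisors `e(n w_j) - 1` has modulus at least `c |n|^(-391)`, then this
eigenvalue is at most `exp(-c' |n|^(-782))` in modulus, and the library has such a bound
(`Pool.Agent.Q203.XS.main'`).
-/

set_option autoImplicit false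

namespace Pool.Agent.Results.MP_4f096c_nt.RandomWalk

open Pool.Agent.Helper12.ZR

/-- **Mixing of the lazy random walk.** Let `J` be the set of the nine odd numbers from `11` to `27`, and `S` a finite
set of indices such that `ζ(j)` is rational for all `j ∈ J` outside `S` (for instance `S = J`; or `S = {11}`, if the
other eight are rational). Let `w_j = (p_j ζ(j) + r_j) / s_j` for `j ∈ S ∩ J`, with integers `p_j, s_j ≠ 0` and `r_j`
(for instance `w_j = ζ(j)`), and let the `w_j` with `j ∈ S` outside `J` be any real numbers. In one step the walk on the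
circle stays where it is or moves by one of the `w_j`, `j ∈ S`, each with probability `1 / (|S| + 1)`; so
`(step S w)^[N] f x` is the expectation of `f` after `N` steps from `x`. Then (1) there is `c > 0` such that for every
`n ≠ 0` the character `e(n x)` is an eigenfunction of the walk with an eigenvalue of modulus at most
`exp(-c |n|^(-782))`; (2) for every `k` and every `f` of period one and of class `C^(782 k + 2)` there is `K` such that
after `N ≥ 1` steps, from every starting point, the expectation of `f` differs from its mean by at most `K / N^k`. -/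
theorem result (S : Finset ℕ) (hrat : ∀ j ∈ J, j ∉ S → ∃ x : ℚ, zeta j = x)
    (p r s : ℕ → ℤ) (hp : ∀ j ∈ J, p j ≠ 0) (hs : ∀ j ∈ J, s j ≠ 0) (w : ℕ → ℝ)
    (hw : ∀ j ∈ J, j ∈ S → w j = (p j * zeta j + r j) / s j) :
    (∃ c : ℝ, 0 < c ∧ ∀ n : ℤ, n ≠ 0 → ∃ m : ℂ, ‖m‖ ≤ Real.exp (-(c / |(n : ℝ)| ^ 782)) ∧
      ∀ x, step S w (fun y => e (n * y)) x = m * e (n * x)) ∧
    ∀ (k : ℕ) (f : ℝ → ℂ), Function.Periodic f 1 →
      ContDiff ℝ ((782 * k + 2 : ℕ) : WithTop ℕ∞) f →
      ∃ K : ℝ, ∀ N : ℕ, 1 ≤ N → ∀ x,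
        ‖(step S w)^[N] f x - ∫ t in (0:ℝ)..1, f t‖ ≤ K / (N : ℝ) ^ k := by
  obtain ⟨c, hc, hd⟩ := sub_divisors S hrat p r s hp hs w hw
  refine ⟨⟨c ^ 2 / (4 * (S.card + 1)), by positivity, fun n hn => ?_⟩, fun k f hp' hf => ?_⟩
  · obtain ⟨j, hj, h⟩ := hd n hn
    refine ⟨mult S w n, (mult_le S w n hj).trans ?_, fun x => ?_⟩
    · rw [Real.exp_le_exp, neg_le_neg_iff]
      have h2 : (c / |(n:ℝ)| ^ 391) ^ 2 ≤ ‖e (n * w j) - 1‖ ^ 2 :=
        pow_le_pow_left₀ (by positivity) h 2
      calc c ^ 2 / (4 * (S.card + 1)) / |(n:ℝ)| ^ 782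
          = (c / |(n:ℝ)| ^ 391) ^ 2 / (4 * (S.card + 1)) := by
            rw [div_pow, ← pow_mul, div_div, div_div]
            congr 1
            ring
        _ ≤ _ := div_le_div_of_nonneg_right h2 (by positivity)
    · unfold step mult
      simp only [mul_add, e_add]
      rw [← Finset.mul_sum]
      ring
  · exact walk S w hc 391 hd k hp' hf

end Pool.Agent.Results.MP_4f096c_nt.RandomWalk
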