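import Pool.Agent.Helper12.ZR.Sub
import Pool.Agent.Helper12.ZR.Wave

/-!
# A vibrating string and its positions at the times `0, ζ(11), ζ(13), …, ζ(27)`

The proof: the `n`-th mode of a motion is `P e(n t) + Q e(-n t)`; its values at the times `0` and `w`
determine it up to the divisor `e(2 n w) - 1`, and by the simultaneous measure of the library
(`Pool.Agent.Q203.XS.main'`) for one of the nine times this divisor is at least `c |n|^(-391)`.
-/

set_option autoImplicit false

namespace Pool.Agent.Results.MP_4f096c_nt.StringPositions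

open Pool.Agent.Helper12.ZR

/-- **The positions of a string at ten times.** Let `J` be the set of the nine odd numbers from `11` to `27`, and `S` a
finite set of indices such that `ζ(j)` is rational for all `j ∈ J` outside `S` (for instance `S = J`; or `S = {11}`, if
the other eight are rational). Let `w_j = (p_j ζ(j) + r_j) / s_j` for `j ∈ S ∩ J`, with integers `p_j, s_j ≠ 0` and `r_j`
(for instance `w_j = ζ(j)`), and let the `w_j` with `j ∈ S` outside `J` be any real numbers. There is `C` such that for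
every motion `u` of the closed string of length one (`u_tt = u_xx`, `u` of class `C^2` and of period one in `x`):
(1) for each `n ≠ 0` there is `j ∈ S` such that the `n`-th Fourier coefficient of `u(t, ·)` is, at all times `t`, at most
`C |n|^391` times the sum of those of `u(0, ·)` and `u(w_j, ·)`; (2) there is `j ∈ S` with `w_j ≠ 0`, and the mean value
of `u(t, ·)` is the affine function of `t` with the given values at `0` and `w_j`; (3) if two motions have the same
positions at the time `0` and at the times `w_j`, `j ∈ S`, they are equal. -/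
theorem result (S : Finset ℕ) (hrat : ∀ j ∈ J, j ∉ S → ∃ x : ℚ, zeta j = x)
    (p r s : ℕ → ℤ) (hp : ∀ j ∈ J, p j ≠ 0) (hs : ∀ j ∈ J, s j ≠ 0) (w : ℕ → ℝ)
    (hw : ∀ j ∈ J, j ∈ S → w j = (p j * zeta j + r j) / s j) :
    (∃ C : ℝ, ∀ u : ℝ → ℝ → ℂ, Wave u → ∀ n : ℤ, n ≠ 0 → ∃ j ∈ S, ∀ t,
      ‖coef (u t) n‖ ≤ C * |(n : ℝ)| ^ 391 * (‖coef (u 0) n‖ + ‖coef (u (w j)) n‖)) ∧
    (∃ j ∈ S, w j ≠ 0 ∧ ∀ u : ℝ → ℝ → ℂ, Wave u → ∀ t : ℝ, (∫ x in (0:ℝ)..1, u t x) =
      (∫ x in (0:ℝ)..1, u 0 x) +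
        (t / w j : ℝ) * ((∫ x in (0:ℝ)..1, u (w j) x) - ∫ x in (0:ℝ)..1, u 0 x)) ∧
    ∀ u v : ℝ → ℝ → ℂ, Wave u → Wave v → (∀ x, u 0 x = v 0 x) →
      (∀ j ∈ S, ∀ x, u (w j) x = v (w j) x) → ∀ t x, u t x = v t x := by
  obtain ⟨c, hc, hd⟩ := sub_divisors S hrat p r s hp hs w hw
  have hA : ∀ u : ℝ → ℝ → ℂ, Wave u → ∀ n : ℤ, n ≠ 0 → ∃ j ∈ S, ∀ t,
      ‖coef (u t) n‖ ≤ (2 * 2 ^ 391 / c) * |(n : ℝ)| ^ 391 *
        (‖coef (u 0) n‖ + ‖coef (u (w j)) n‖) := by
    intro u hu n hn
    obtain ⟨P, Q, hPQ⟩ := hu.mode hn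
    obtain ⟨j, hj, h⟩ := hd (2 * n) (mul_ne_zero two_ne_zero hn)
    refine ⟨j, hj, fun t => ?_⟩
    have hn0 : 0 < |(n : ℝ)| := abs_pos.2 (by exact_mod_cast hn)
    have h0 : coef (u 0) n = P + Q := by
      have := hPQ 0
      rw [mul_zero, neg_zero, e_zero, mul_one, mul_one] at this
      exact this
    have h1 := hPQ (w j)
    have h2 : e (n * w j) * e (-(n * w j)) = 1 := by
      rw [← e_add, add_neg_cancel, e_zero]
    have h3 : e (((2 * n : ℤ) : ℝ) * w j) = e (n * w j) * e (n * w j) := by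
      rw [← e_add]
      congr 1
      push_cast
      ring
    have hP : P * (e (((2 * n : ℤ) : ℝ) * w j) - 1) =
        e (n * w j) * coef (u (w j)) n - coef (u 0) n := by
      rw [h0, h1, h3]
      linear_combination (-Q) * h2
    have hQ : Q * (e (((2 * n : ℤ) : ℝ) * w j) - 1) =
        e (((2 * n : ℤ) : ℝ) * w j) * coef (u 0) n - e (n * w j) * coef (u (w j)) n := by
      rw [h0, h1, h3]
      linear_combination Q * h2
    obtain ⟨B, hB⟩ : ∃ B : ℝ, B = ‖coef (u 0) n‖ + ‖coef (u (w j)) n‖ := ⟨_, rfl⟩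
    have hdv : c / |((2 * n : ℤ) : ℝ)| ^ 391 = c / (2 ^ 391 * |(n : ℝ)| ^ 391) := by
      push_cast
      rw [abs_mul, abs_two, mul_pow]
    rw [hdv] at h
    have h4 : 0 < c / (2 ^ 391 * |(n : ℝ)| ^ 391) := by positivity
    have hbd : ∀ R : ℂ, ‖R * (e (((2 * n : ℤ) : ℝ) * w j) - 1)‖ ≤ B →
        ‖R‖ ≤ (2 ^ 391 * |(n : ℝ)| ^ 391) / c * B := by
      intro R hR
      rw [norm_mul] at hR
      have h5 : ‖R‖ * (c / (2 ^ 391 * |(n : ℝ)| ^ 391)) ≤ B :=
        (mul_le_mul_of_nonneg_left h (norm_nonneg _)).trans hR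
      calc ‖R‖ = (2 ^ 391 * |(n : ℝ)| ^ 391) / c *
            (‖R‖ * (c / (2 ^ 391 * |(n : ℝ)| ^ 391))) := by field_simp
        _ ≤ _ := mul_le_mul_of_nonneg_left h5 (by positivity)
    have hP' := hbd P (by
      rw [hP, hB]
      refine (norm_sub_le _ _).trans ?_
      rw [norm_mul, norm_e, one_mul, add_comm])
    have hQ' := hbd Q (by
      rw [hQ, hB]
      refine (norm_sub_le _ _).trans ?_
      rw [norm_mul, norm_mul, norm_e, norm_e, one_mul, one_mul])
    rw [hPQ t]
    calc ‖P * e (n * t) + Q * e (-(n * t))‖ ≤ ‖P‖ + ‖Q‖ := by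
          refine (norm_add_le _ _).trans ?_
          rw [norm_mul, norm_mul, norm_e, norm_e, mul_one, mul_one]
      _ ≤ (2 ^ 391 * |(n : ℝ)| ^ 391) / c * B + (2 ^ 391 * |(n : ℝ)| ^ 391) / c * B :=
          add_le_add hP' hQ'
      _ = (2 * 2 ^ 391 / c) * |(n : ℝ)| ^ 391 * B := by ring
      _ = _ := by rw [hB]
  have hB : ∃ j ∈ S, w j ≠ 0 := by
    obtain ⟨j, hj, h⟩ := hd 1 one_ne_zero
    refine ⟨j, hj, fun h0 => ?_⟩
    rw [h0, mul_zero, e_zero, sub_self, norm_zero] at h
    have : 0 < c / |((1 : ℤ) : ℝ)| ^ 391 := by positivity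
    linarith
  obtain ⟨j₀, hj₀, hw₀⟩ := hB
  have hM : ∀ u : ℝ → ℝ → ℂ, Wave u → ∀ t : ℝ, (∫ x in (0:ℝ)..1, u t x) =
      (∫ x in (0:ℝ)..1, u 0 x) +
        (t / w j₀ : ℝ) * ((∫ x in (0:ℝ)..1, u (w j₀) x) - ∫ x in (0:ℝ)..1, u 0 x) := by
    intro u hu t
    obtain ⟨P, Q, hPQ⟩ := hu.mode_zero
    rw [← coef_zero, ← coef_zero, ← coef_zero, hPQ t, hPQ 0, hPQ (w j₀)]
    have : (w j₀ : ℂ) ≠ 0 := by exact_mod_cast hw₀
    push_cast
    field_simp
    ring
  refine ⟨⟨_, hA⟩, ⟨j₀, hj₀, hw₀, hM⟩, fun u v hu hv h0 hj t x => ?_⟩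
  have hs0 : ∀ n : ℤ, coef (u t) n = coef (v t) n := by
    intro n
    by_cases hn : n = 0
    · rw [hn, coef_zero, coef_zero, hM u hu t, hM v hv t]
      simp_rw [h0, hj j₀ hj₀]
    · obtain ⟨P, Q, hPQ⟩ := hu.mode hn
      obtain ⟨P', Q', hPQ'⟩ := hv.mode hn
      obtain ⟨j, hjS, h⟩ := hd (2 * n) (mul_ne_zero two_ne_zero hn)
      have hn0 : 0 < |((2 * n : ℤ) : ℝ)| := abs_pos.2 (by
        exact_mod_cast mul_ne_zero two_ne_zero hn)
      have hne : e (((2 * n : ℤ) : ℝ) * w j) - 1 ≠ 0 := by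
        intro h1
        rw [h1, norm_zero] at h
        have : 0 < c / |((2 * n : ℤ) : ℝ)| ^ 391 := by positivity
        linarith
      have e0 : P + Q = P' + Q' := by
        have a1 := hPQ 0
        have a2 := hPQ' 0
        rw [mul_zero, neg_zero, e_zero, mul_one, mul_one] at a1 a2
        rw [← a1, ← a2]
        congr 1
        exact funext h0
      have e1 : P * e (n * w j) + Q * e (-(n * w j)) = P' * e (n * w j) + Q' * e (-(n * w j)) := by
        rw [← hPQ, ← hPQ']
        congr 1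
        exact funext (hj j hjS)
      have h2 : e (n * w j) * e (-(n * w j)) = 1 := by
        rw [← e_add, add_neg_cancel, e_zero]
      have h3 : e (((2 * n : ℤ) : ℝ) * w j) = e (n * w j) * e (n * w j) := by
        rw [← e_add]
        congr 1
        push_cast
        ring
      have h4 : (P - P') * (e (((2 * n : ℤ) : ℝ) * w j) - 1) = 0 := by
        rw [h3]
        linear_combination (e (n * w j)) * e1 - e0 + (Q' - Q) * h2
      have h5 : P - P' = 0 := (mul_eq_zero.1 h4).resolve_right hne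
      have h6 : P = P' := sub_eq_zero.1 h5
      have h7 : Q = Q' := by
        rw [h6] at e0
        exact add_left_cancel e0
      rw [hPQ t, hPQ' t, h6, h7]
  have hcu : Continuous (u t) := hu.smooth.continuous.comp (Continuous.prodMk_right t)
  have hcv : Continuous (v t) := hv.smooth.continuous.comp (Continuous.prodMk_right t)
  have hg : ∀ n : ℤ, coef (fun x => u t x - v t x) n = 0 := fun n => by
    rw [coef_sub hcu hcv, hs0 n, sub_self]
  have hgs : Summable (coef fun x => u t x - v t x) := by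
    have : (coef fun x => u t x - v t x) = fun _ => 0 := funext hg
    rw [this]
    exact summable_zero
  have h1 := inversion (g := fun x => u t x - v t x) (fun y => by
    show u t (y + 1) - v t (y + 1) = u t y - v t y
    rw [hu.periodic t y, hv.periodic t y]) (hcu.sub hcv) hgs x
  simp_rw [hg, zero_mul] at h1
  exact sub_eq_zero.1 (h1.unique hasSum_zero)

end Pool.Agent.Results.MP_4f096c_nt.StringPositions
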